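import Pool.Agent.Lib.MP_eee7a8_ag.TB.Iface4
import Pool.Agent.Lib.MP_eee7a8_ag.TB.A.Coord

/-!
# TAGBR, module GEOA2
-/

set_option autoImplicit false

open Matrix

namespace Pool.Agent.Lib.MP_eee7a8_ag.TB.C86

variable {G : Subgroup SLZ}

/-- a generator of the stabiliser moving the coordinate to the right, such that `s w < s v` -/
lemma oriented (hSt : StabStatement) (hG : IsSurface G) (z w v : Cusp) (hw : w ≠ z) (hv : v ≠ z)
    (hwv : w ≠ v) : ∃ (s : Cusp → ℚ) (W : ℚ) (γ : SLZ), 0 < W ∧ γ ∈ G ∧ γ • z = z ∧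
    (∀ g ∈ G, g • z = z → ∃ k : ℤ, (g = γ ^ k ∨ g = -γ ^ k) ∧
      ∀ x, x ≠ z → g • x ≠ z ∧ s (g • x) = s x + k * W) ∧
    (∀ x, x ≠ z → γ • x ≠ z ∧ s (γ • x) = s x + W) ∧
    s w < s v ∧
    (∀ x y, x ≠ z → y ≠ z → s x = s y → x = y) ∧
    (∀ b x y, b ≠ z → x ≠ z → y ≠ z →
      (Cross z b x y ↔ (s x < s b ∧ s b < s y) ∨ (s y < s b ∧ s b < s x))) ∧
    (∀ a b x y, a ≠ z → b ≠ z → x ≠ z → y ≠ z → (Cross a b x y ↔
      (((s a < s x ∧ s x < s b) ∨ (s b < s x ∧ s x < s a)) ∧
        ((s a < s y ∧ s b < s y) ∨ (s y < s a ∧ s y < s b))) ∨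
      (((s a < s x ∧ s b < s x) ∨ (s x < s a ∧ s x < s b)) ∧
        ((s a < s y ∧ s y < s b) ∨ (s b < s y ∧ s y < s a))))) := by
  obtain ⟨t, c1, c2, -, c4, c5⟩ := coord z
  obtain ⟨hW, hmem, hgen⟩ := hSt G hG z
  -- a generator
  obtain ⟨γ, hγ, hγz, hγt, hγg⟩ : ∃ γ ∈ G, γ • z = z ∧
      (∀ x, x ≠ z → ∀ k : ℤ, γ ^ k • x ≠ z ∧ t (γ ^ k • x) = t x + k * (width G z : ℚ)) ∧
      (∀ g ∈ G, g • z = z → ∃ k : ℤ, g = γ ^ k ∨ g = -γ ^ k) := by
    have hpw : ∀ x, x ≠ z → ∀ k : ℤ, par z (k * width G z) • x ≠ z ∧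
        t (par z (k * width G z) • x) = t x + k * (width G z : ℚ) := by
      intro x hx k
      obtain ⟨h1, h2⟩ := c2 (k * width G z) x hx
      refine ⟨h1, ?_⟩
      rw [h2]
      push_cast
      ring
    rcases hmem with hm | hm
    · refine ⟨_, hm, par_smul_self z _, ?_, ?_⟩
      · intro x hx k
        rw [par_zpow]
        exact hpw x hx k
      · intro g hg hgz
        obtain ⟨k, hk⟩ := hgen g hg hgz
        exact ⟨k, by rw [par_zpow]; exact hk⟩
    · have hpow : ∀ k : ℤ, (-par z (width G z)) ^ k = par z (k * width G z) ∨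
          (-par z (width G z)) ^ k = -par z (k * width G z) := by
        intro k
        rcases Int.even_or_odd k with h | h
        · left; rw [h.neg_zpow, par_zpow]
        · right; rw [h.neg_zpow, par_zpow]
      refine ⟨_, hm, by rw [neg_smul']; exact par_smul_self z _, ?_, ?_⟩
      · intro x hx k
        rcases hpow k with h | h
        · rw [h]; exact hpw x hx k
        · rw [h, neg_smul']; exact hpw x hx k
      · intro g hg hgz
        obtain ⟨k, hk⟩ := hgen g hg hgz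
        refine ⟨k, ?_⟩
        rcases hpow k with h | h
        · rw [h]; exact hk
        · rw [h, neg_neg]; exact hk.symm
  have hW' : (0 : ℚ) < width G z := by exact_mod_cast hW
  have htne : t w ≠ t v := fun h => hwv (c1 w v hw hv h)
  have hgfix : ∀ g ∈ G, g • z = z → ∀ k : ℤ, (g = γ ^ k ∨ g = -γ ^ k) →
      ∀ x, x ≠ z → g • x ≠ z ∧ t (g • x) = t x + k * (width G z : ℚ) := by
    intro g _ _ k hk x hx
    rcases hk with rfl | rfl
    · exact hγt x hx k
    · rw [neg_smul']; exact hγt x hx k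
  rcases lt_or_gt_of_ne htne with hlt | hgt
  · refine ⟨t, width G z, γ, hW', hγ, hγz, ?_, ?_, hlt, c1, c4, c5⟩
    · intro g hg hgz
      obtain ⟨k, hk⟩ := hγg g hg hgz
      exact ⟨k, hk, hgfix g hg hgz k hk⟩
    · intro x hx
      have := hγt x hx 1
      rw [zpow_one] at this
      simpa using this
  · refine ⟨fun x => -t x, width G z, γ⁻¹, hW', G.inv_mem hγ, ?_, ?_, ?_, ?_, ?_, ?_, ?_⟩
    · rw [inv_smul_eq_iff]; exact hγz.symm
    · intro g hg hgz
      obtain ⟨k, hk⟩ := hγg g hg hgz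
      refine ⟨-k, ?_, ?_⟩
      · rw [_root_.inv_zpow, _root_.zpow_neg, inv_inv]; exact hk
      · intro x hx
        obtain ⟨h1, h2⟩ := hgfix g hg hgz k hk x hx
        refine ⟨h1, ?_⟩
        show -t (g • x) = -t x + ((-k : ℤ) : ℚ) * (width G z : ℚ)
        rw [h2]
        push_cast
        ring
    · intro x hx
      have := hγt x hx (-1)
      rw [_root_.zpow_neg, zpow_one] at this
      refine ⟨this.1, ?_⟩
      show -t (γ⁻¹ • x) = -t x + (width G z : ℚ)
      rw [this.2]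
      push_cast
      ring
    · simpa using hgt
    · intro x y hx hy h
      exact c1 x y hx hy (neg_injective h)
    · intro b x y hb hx hy
      rw [c4 b x y hb hx hy]
      simp only [neg_lt_neg_iff]
      tauto
    · intro a b x y ha hb hx hy
      rw [c5 a b x y ha hb hx hy]
      simp only [neg_lt_neg_iff]
      tauto

/-- crossing of translates reduces to crossing of one with a translate of the other -/
lemma cross_same' {p q r s a b c d : Cusp} (h1 : SameArc G p q a b) (h2 : SameArc G r s c d)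
    (h : ∀ g ∈ G, ¬ Cross p q (g • r) (g • s)) : ¬ Cross a b c d := by
  obtain ⟨g, hg, h1⟩ := h1
  obtain ⟨k, hk, h2⟩ := h2
  intro hc
  have key := h (g⁻¹ * k) (G.mul_mem (G.inv_mem hg) hk)
  rw [mul_smul, mul_smul] at key
  rw [← cross_smul g] at key
  rw [smul_inv_smul, smul_inv_smul] at key
  apply key
  rcases h1 with ⟨rfl, rfl⟩ | ⟨rfl, rfl⟩ <;> rcases h2 with ⟨rfl, rfl⟩ | ⟨rfl, rfl⟩
  · exact hc
  · exact cross_comm_right.1 hc
  · exact cross_comm_left.1 hc
  · exact cross_comm_left.1 (cross_comm_right.1 hc)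

theorem geoa2 (hSt : StabStatement) (hM : MaxFlipStatement) : GeoA2Statement := by
  intro G hG ι _ T hT F hF w v z hwv hzw hzv hz hns
  have hEwv : T.E G w v := hF.sub _ _ hwv
  have hFinv : ∀ g ∈ G, ∀ a b, F a b → F (g • a) (g • b) := fun g hg a b h =>
    hF.inv _ _ _ _ (SameArc.smul hg a b) h
  have hFsymm : ∀ a b, F a b → F b a := fun a b h => hF.inv _ _ _ _ (SameArc.rev a b) h
  have nw : ∀ g ∈ G, g • z ≠ w := by
    intro g hg e
    have h := hFinv g⁻¹ (G.inv_mem hg) _ _ hwv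
    rw [← e, inv_smul_smul] at h
    exact (hz _).1 h
  have nv : ∀ g ∈ G, g • z ≠ v := by
    intro g hg e
    have h := hFinv g⁻¹ (G.inv_mem hg) _ _ hwv
    rw [← e, inv_smul_smul] at h
    exact (hz _).2 h
  have hwz : w ≠ z := fun h => nw 1 G.one_mem (by rw [one_smul, h])
  have hvz : v ≠ z := fun h => nv 1 G.one_mem (by rw [one_smul, h])
  have hwvne : w ≠ v := hT.toNonCross.ne' hEwv
  obtain ⟨s, W, γ, hW, hγ, hγz, hgen, hγs, hlt, s1, s4, s5⟩ :=
    oriented hSt hG z w v hwz hvz hwvne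
  obtain ⟨hγw, sγw⟩ := hγs w hwz
  -- `s w < s v < s (γ w)`
  have hlt2 : s v < s (γ • w) := by
    rcases lt_trichotomy (s v) (s (γ • w)) with h | h | h
    · exact h
    · exfalso
      apply hns
      have := s1 _ _ hvz hγw h
      refine ⟨γ, hγ, Or.inl ⟨hγz, this.symm⟩⟩
    · exfalso
      have hE : T.E G z (γ • w) := by
        have := hzw.smul hγ
        rwa [hγz] at this
      refine hT.nocross _ _ _ _ hE hEwv ?_
      rw [s4 (γ • w) w v hγw hwz hvz]
      left
      constructor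
      · rw [sγw]; linarith
      · exact h
  have hEγ : T.E G z (γ • w) := by
    have := hzw.smul hγ
    rwa [hγz] at this
  -- translates of `z`
  have hgz : ∀ g ∈ G, g • v ≠ z := by
    intro g hg e
    exact nv g⁻¹ (G.inv_mem hg) (by rw [← e, inv_smul_smul])
  have hgzw : ∀ g ∈ G, g • w ≠ z := by
    intro g hg e
    exact nw g⁻¹ (G.inv_mem hg) (by rw [← e, inv_smul_smul])
  -- `T`-edges crossing `(v, γ w)` join `z` to a point between `v` and `γ w`
  have key1 : ∀ p q, T.E G p q → p ≠ z → q ≠ z → ¬ Cross v (γ • w) p q := by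
    intro p q hpq hp hq hc
    have n1 := hT.nocross _ _ _ _ hzv hpq
    have n2 := hT.nocross _ _ _ _ hEγ hpq
    rw [s4 v p q hvz hp hq] at n1
    rw [s4 (γ • w) p q hγw hp hq] at n2
    rw [s5 v (γ • w) p q hvz hγw hp hq] at hc
    grind
  have key2 : ∀ q, T.E G z q → Cross v (γ • w) z q → s v < s q ∧ s q < s (γ • w) := by
    intro q hq hc
    have hqz : q ≠ z := (hT.toNonCross.ne' hq).symm
    have hc2 := cross_swap.1 hc
    rw [s4 q v (γ • w) hqz hvz hγw] at hc2
    rcases hc2 with h | h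
    · exact h
    · exfalso; linarith [h.1, h.2]
  -- the integrality argument
  have hint : ∀ (k : ℤ) (x y : ℚ), x < y → y < x + W → ¬ (x < y + k * W ∧ y + k * W < y) := by
    intro k x y h1 h2 ⟨h3, h4⟩
    have h5 : (k : ℚ) < 0 := by nlinarith
    have h5' : k < 0 := by exact_mod_cast h5
    have h6 : (k : ℚ) ≤ -1 := by exact_mod_cast (show k ≤ -1 by omega)
    nlinarith
  have nF : ∀ p q, F p q → ¬ Cross v (γ • w) p q := by
    intro p q hpq
    refine key1 p q (hF.sub _ _ hpq) ?_ ?_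
    · rintro rfl; exact (hz _).1 hpq
    · rintro rfl; exact (hz _).2 hpq
  -- translates of `z x`, `x` a neighbour of `z`, whose coordinate is not between
  have nR : ∀ x, T.E G z x → (∀ g ∈ G, g • z ≠ x) →
      (∀ k : ℤ, ¬ (s v < s x + k * W ∧ s x + k * W < s (γ • w))) →
      ∀ p q, SameArc G z x p q → ¬ Cross v (γ • w) p q := by
    intro x hx hnx hk p q hpq hc
    have hxz : x ≠ z := fun h => hnx 1 G.one_mem (by rw [one_smul, h])
    have main : ∀ q, SameArc G z x z q → ¬ Cross v (γ • w) z q := by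
      intro q hpq hc
      obtain ⟨g, hg, ⟨h1, h2⟩ | ⟨h1, h2⟩⟩ := hpq
      · obtain ⟨k, -, hk2⟩ := hgen g hg h1
        have h3 := key2 q (by rw [← h2]; have := hx.smul hg; rwa [h1] at this) hc
        rw [← h2, (hk2 x hxz).2] at h3
        exact hk k h3
      · exact hnx g⁻¹ (G.inv_mem hg) (by rw [← h2, inv_smul_smul])
    by_cases hp : p = z
    · rw [hp] at hpq hc
      exact main q hpq hc
    by_cases hq : q = z
    · rw [hq] at hpq hc
      exact main p (hpq.trans (SameArc.rev _ _)) (cross_comm_right.1 hc)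
    exact key1 p q (hx.same hpq) hp hq hc
  have nzw : ∀ p q, SameArc G z w p q → ¬ Cross v (γ • w) p q := by
    apply nR w hzw nw
    rintro k ⟨h1, h2⟩
    rw [sγw] at h2
    have h3 : (0 : ℚ) < k := by nlinarith
    have h4 : (1 : ℚ) ≤ k := by exact_mod_cast (by exact_mod_cast h3 : 0 < k)
    nlinarith
  have nzv : ∀ p q, SameArc G z v p q → ¬ Cross v (γ • w) p q := by
    apply nR v hzv nv
    rintro k ⟨h1, h2⟩
    rw [sγw] at h2
    have h3 : (0 : ℚ) < k := by nlinarith
    have h4 : (1 : ℚ) ≤ k := by exact_mod_cast (by exact_mod_cast h3 : 0 < k)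
    nlinarith
  -- `(v, γ w)` is simple
  have hvγw : v ≠ γ • w := fun h => by rw [← h] at hlt2; exact lt_irrefl _ hlt2
  have nS : ∀ h ∈ G, ¬ Cross v (γ • w) (h • v) (h • γ • w) := by
    intro h hh hc
    have hv' : h • v ≠ z := hgz h hh
    have hw' : h • γ • w ≠ z := by
      rw [← mul_smul]; exact hgzw _ (G.mul_mem hh hγ)
    rw [s5 v (γ • w) (h • v) (h • γ • w) hvz hγw hv' hw'] at hc
    by_cases hhz : h • z = z
    · obtain ⟨k, -, hk⟩ := hgen h hh hhz
      rw [(hk v hvz).2, (hk (γ • w) hγw).2, sγw] at hc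
      rw [sγw] at hlt2
      -- both intervals have length less than `W`
      rcases lt_trichotomy k 0 with h0 | h0 | h0
      · have h1 : (k : ℚ) ≤ -1 := by exact_mod_cast (show k ≤ -1 by omega)
        have h2 : (k : ℚ) * W ≤ -W := by nlinarith
        rcases hc with ⟨h3, h4⟩ | ⟨h3, h4⟩
        · rcases h3 with h3 | h3 <;> linarith [h3.1, h3.2]
        · rcases h4 with h4 | h4
          · linarith [h4.1, h4.2]
          · linarith [h4.1, h4.2]
      · subst h0
        simp only [Int.cast_zero, zero_mul, add_zero, lt_self_iff_false, false_and, and_false,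
          or_self] at hc
      · have h1 : (1 : ℚ) ≤ k := by exact_mod_cast h0
        have h2 : W ≤ (k : ℚ) * W := by nlinarith
        rcases hc with ⟨h3, h4⟩ | ⟨h3, h4⟩
        · rcases h3 with h3 | h3 <;> linarith [h3.1, h3.2]
        · rcases h4 with h4 | h4
          · linarith [h4.1, h4.2]
          · linarith [h4.1, h4.2]
    · have e1 : T.E G (h • z) (h • v) := hzv.smul hh
      have e2 : T.E G (h • z) (h • γ • w) := hEγ.smul hh
      have n1 := hT.nocross _ _ _ _ hzv e1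
      have n2 := hT.nocross _ _ _ _ hEγ e1
      have n3 := hT.nocross _ _ _ _ hzv e2
      have n4 := hT.nocross _ _ _ _ hEγ e2
      rw [s4 v _ _ hvz hhz hv'] at n1
      rw [s4 (γ • w) _ _ hγw hhz hv'] at n2
      rw [s4 v _ _ hvz hhz hw'] at n3
      rw [s4 (γ • w) _ _ hγw hhz hw'] at n4
      have m1 : s (h • z) ≠ s v := fun e => nv h hh (s1 _ _ hhz hvz e)
      have m2 : s (h • z) ≠ s (γ • w) := fun e => by
        have e' := s1 _ _ hhz hγw e
        exact nw (γ⁻¹ * h) (G.mul_mem (G.inv_mem hγ) hh) (by rw [mul_smul, e', inv_smul_smul])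
      grind
  -- the family
  let κ := {i : ι // F (T.s i) (T.t i)} ⊕ Fin 3
  let Q : Fam κ := ⟨Sum.elim (fun i => T.s i.1) ![z, z, v], Sum.elim (fun i => T.t i.1) ![w, v, γ • w]⟩
  have hQE : ∀ a b, Q.E G a b ↔ F a b ∨ SameArc G z w a b ∨ SameArc G z v a b ∨
      SameArc G v (γ • w) a b := by
    intro a b
    constructor
    · rintro ⟨i, hi⟩
      rcases i with ⟨i, hFi⟩ | i
      · exact Or.inl (hF.inv _ _ _ _ hi hFi)
      · fin_cases i
        · exact Or.inr (Or.inl hi)
        · exact Or.inr (Or.inr (Or.inl hi))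
        · exact Or.inr (Or.inr (Or.inr hi))
    · rintro (h | h | h | h)
      · obtain ⟨i, hi⟩ := hF.sub _ _ h
        exact ⟨Sum.inl ⟨i, hF.inv _ _ _ _ hi.symm h⟩, hi⟩
      · exact ⟨Sum.inr 0, h⟩
      · exact ⟨Sum.inr 1, h⟩
      · exact ⟨Sum.inr 2, h⟩
  have hQT : ∀ a b, Q.E G a b → (T.E G a b ∧ ∀ g ∈ G, ¬ Cross v (γ • w) (g • a) (g • b)) ∨
      SameArc G v (γ • w) a b := by
    intro a b h
    rw [hQE] at h
    rcases h with h | h | h | h
    · exact Or.inl ⟨hF.sub _ _ h, fun g hg => nF _ _ (hFinv g hg _ _ h)⟩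
    · exact Or.inl ⟨hzw.same h, fun g hg => nzw _ _ (h.smul_right hg)⟩
    · exact Or.inl ⟨hzv.same h, fun g hg => nzv _ _ (h.smul_right hg)⟩
    · exact Or.inr h
  have hQ : Q.NonCross G := by
    constructor
    · intro i
      rcases i with ⟨i, hFi⟩ | i
      · exact hT.ne i
      · fin_cases i
        · exact hwz.symm
        · exact hvz.symm
        · exact hvγw
    · intro a b c d h1 h2
      rcases hQT _ _ h1 with ⟨h1, h3⟩ | h1 <;> rcases hQT _ _ h2 with ⟨h2, h4⟩ | h2
      · exact hT.nocross _ _ _ _ h1 h2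
      · intro hc
        exact cross_same' h2 (SameArc.refl a b) h3 (cross_swap.1 hc)
      · exact cross_same' h1 (SameArc.refl c d) h4
      · exact cross_same' h1 h2 nS
  obtain ⟨T', hT', -, hsub⟩ := hM G hG ι κ T Q hT hQ
  refine ⟨γ, T', ?_, ?_⟩
  · refine ⟨hT', hγ, hγz, ?_, ?_, ?_, ?_, ?_, ?_, nw, nv⟩
    · intro g hg hgz'
      obtain ⟨k, hk, -⟩ := hgen g hg hgz'
      exact ⟨k, hk⟩
    · exact hsub _ _ ((hQE _ _).2 (Or.inr (Or.inl (SameArc.refl _ _))))
    · exact hsub _ _ ((hQE _ _).2 (Or.inr (Or.inr (Or.inl (SameArc.refl _ _)))))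
    · exact hsub _ _ ((hQE _ _).2 (Or.inl hwv))
    · exact hsub _ _ ((hQE _ _).2 (Or.inr (Or.inr (Or.inr (SameArc.refl _ _)))))
    · rw [s4 v w (γ • w) hvz hwz hγw]
      exact Or.inl ⟨hlt, hlt2⟩
  · exact ⟨fun a b h => hsub _ _ ((hQE _ _).2 (Or.inl h)), hF.inv⟩

end Pool.Agent.Lib.MP_eee7a8_ag.TB.C86
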