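import Pool.Agent.Lib.MP_eee7a8_ag.TB.Iface4
import Pool.Agent.Lib.MP_eee7a8_ag.TB.A.Tri

/-!
# TAGBR, module SIMARC
-/

set_option autoImplicit false

open Matrix

namespace Pool.Agent.Lib.MP_eee7a8_ag.TB.C86

variable {G : Subgroup SLZ}

/-- the family of two arcs -/
def two (u v x y : Cusp) : Fam (Fin 2) := ⟨![u, x], ![v, y]⟩

lemma two_E {u v x y a b : Cusp} :
    (two u v x y).E G a b ↔ SameArc G u v a b ∨ SameArc G x y a b := by
  constructor
  · rintro ⟨i, hi⟩
    fin_cases i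
    · exact Or.inl hi
    · exact Or.inr hi
  · rintro (h | h)
    · exact ⟨0, h⟩
    · exact ⟨1, h⟩

lemma ge_iff {u v a b : Cusp} : Ge G (some (u, v)) a b ↔ SameArc G u v a b := by
  constructor
  · rintro ⟨p, hp, h⟩
    obtain rfl : (u, v) = p := by simpa using hp
    exact h
  · intro h
    exact ⟨(u, v), rfl, h⟩

/-- crossing of translates reduces to crossing of one with a translate of the other -/
lemma cross_same {p q r s a b c d : Cusp} (h1 : SameArc G p q a b) (h2 : SameArc G r s c d)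
    (h : ∀ g ∈ G, ¬ Cross p q (g • r) (g • s)) : ¬ Cross a b c d := by
  obtain ⟨g, hg, h1⟩ := h1
  obtain ⟨k, hk, h2⟩ := h2
  intro hc
  have key := h (g⁻¹ * k) (G.mul_mem (G.inv_mem hg) hk)
  rw [mul_smul, mul_smul] at key
  rw [← cross_smul g] at key
  rw [smul_inv_smul, smul_inv_smul] at key
  apply key
  rcases h1 with ⟨rfl, rfl⟩ | ⟨rfl, rfl⟩ <;> rcases h2 with ⟨rfl, rfl⟩ | ⟨rfl, rfl⟩
  · exact hc
  · exact cross_comm_right.1 hc
  · exact cross_comm_left.1 hc
  · exact cross_comm_left.1 (cross_comm_right.1 hc)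

/-- two translates of `e` at the same cusp -/
lemma fold {u v a b c : Cusp} (hd : ∀ g ∈ G, g • u ≠ v) (h1 : SameArc G u v a b)
    (h2 : SameArc G u v b c) : (∃ h ∈ G, h • b = b ∧ h • a = c) ∧
      ((∃ g ∈ G, g • u = b) ∨ (∃ g ∈ G, g • v = b)) ∧ (∀ g ∈ G, g • a ≠ b) := by
  have hd' : ∀ g ∈ G, g • v ≠ u := by
    intro g hg e
    exact hd g⁻¹ (G.inv_mem hg) (by rw [← e, inv_smul_smul])
  have comp : ∀ g ∈ G, ∀ k ∈ G, g • u ≠ k • v := by
    intro g hg k hk e
    refine hd (k⁻¹ * g) (G.mul_mem (G.inv_mem hk) hg) ?_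
    rw [mul_smul, e, inv_smul_smul]
  obtain ⟨g, hg, ⟨rfl, hb⟩ | ⟨hb, rfl⟩⟩ := h1 <;> obtain ⟨k, hk, ⟨hb', rfl⟩ | ⟨rfl, hb'⟩⟩ := h2
  · exact absurd (hb'.trans hb.symm) (comp k hk g hg)
  · refine ⟨⟨k * g⁻¹, G.mul_mem hk (G.inv_mem hg), ?_, ?_⟩, Or.inr ⟨g, hg, hb⟩, ?_⟩
    · rw [mul_smul]
      nth_rewrite 1 [← hb]
      rw [inv_smul_smul, hb']
    · rw [mul_smul, inv_smul_smul]
    · intro m hm e
      rw [← mul_smul, ← hb] at e
      exact comp (m * g) (G.mul_mem hm hg) g hg e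
  · refine ⟨⟨k * g⁻¹, G.mul_mem hk (G.inv_mem hg), ?_, ?_⟩, Or.inl ⟨g, hg, hb⟩, ?_⟩
    · rw [mul_smul]
      nth_rewrite 1 [← hb]
      rw [inv_smul_smul, hb']
    · rw [mul_smul, inv_smul_smul]
    · intro m hm e
      rw [← mul_smul, ← hb] at e
      exact comp g hg (m * g) (G.mul_mem hm hg) e.symm
  · exact absurd (hb.trans hb'.symm) (comp g hg k hk)

theorem simarc (hF : FareyStatement) (hM : MaxFlipStatement) (hMo : MonoStatement)
    (hP : PolyStatement) (hMg : MonogStatement) : SimarcStatement := by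
  intro G hG u v hA β hN hne hu hv
  refine ⟨hN.nc, ?_, hN.ncl⟩
  rintro ⟨x, y⟩ hp hsim
  have hxy : x ≠ y := β.ne _ hp
  obtain ⟨hS, hd⟩ := hA (u, v) rfl
  have hSxy : Simple G x y := ⟨hxy, fun g hg => β.nocross _ hp _ hp g hg⟩
  have hNC : ∀ g ∈ G, ¬ Cross u v (g • x) (g • y) := by
    intro g hg hc
    have h1 := hN.nc _ hp (g⁻¹ • u) (g⁻¹ • v) (ge_iff.2 (SameArc.smul (G.inv_mem hg) u v))
    apply h1
    rw [← cross_smul g, smul_inv_smul, smul_inv_smul]
    exact cross_swap.1 hc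
  have hNC' : ∀ g ∈ G, ¬ Cross x y (g • u) (g • v) := fun g hg =>
    hN.nc _ hp _ _ (ge_iff.2 (SameArc.smul hg u v))
  -- a triangulation containing `e` and `xy`, all of whose monogon loops are translates of `xy`
  obtain ⟨n, T0, hT0, -⟩ := hF G hG
  have hQ : (two u v x y).NonCross G := by
    constructor
    · intro i
      fin_cases i
      · exact hS.1
      · exact hxy
    · intro a b c d h1 h2
      rw [two_E] at h1 h2
      rcases h1 with h1 | h1 <;> rcases h2 with h2 | h2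
      · exact cross_same h1 h2 hS.2
      · exact cross_same h1 h2 hNC
      · exact cross_same h1 h2 hNC'
      · exact cross_same h1 h2 hSxy.2
  obtain ⟨T1, hT1, -, hQ1⟩ := hM G hG (Fin n) (Fin 2) T0 (two u v x y) hT0 hQ
  obtain ⟨T2, hT2, -, hQ2, hmono⟩ := hMo G hG (Fin n) (Fin 2) T1 (two u v x y) hT1 hQ1
  by_cases hfold : ∃ a b c, Ge G (some (u, v)) a b ∧ Ge G (some (u, v)) b c ∧ a ≠ c ∧ T2.E G a c
  · obtain ⟨a, b, c, h1, h2, hac, hE⟩ := hfold
    rw [ge_iff] at h1 h2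
    obtain ⟨⟨h, hh, hb, rfl⟩, hor, hab⟩ := fold hd h1 h2
    have hl : SameArc G x y a (h • a) := by
      rcases two_E.1 (hmono h hh a b hb hE) with h3 | h3
      · exfalso
        obtain ⟨g, hg, ⟨h4, h5⟩ | ⟨h4, h5⟩⟩ := h3
        · refine hd (g⁻¹ * (h * g)) (G.mul_mem (G.inv_mem hg) (G.mul_mem hh hg)) ?_
          rw [mul_smul, mul_smul, h4, ← h5, inv_smul_smul]
        · refine hd (g⁻¹ * (h⁻¹ * g)) (G.mul_mem (G.inv_mem hg) (G.mul_mem (G.inv_mem hh) hg)) ?_
          rw [mul_smul, mul_smul, h4, inv_smul_smul, ← h5, inv_smul_smul]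
      · exact h3
    have hsim' : Simple G a (h • a) := hT2.toNonCross.simple hE
    obtain ⟨-, -, -, hmg⟩ := hMg G hG a b h hh hb hsim'
    have hab' : SameArc G u v b a := h1.trans (SameArc.rev a b)
    have hno : ∀ q ∈ β.arcs, (¬ ∃ k ∈ G, k • b = q.1) ∧ (¬ ∃ k ∈ G, k • b = q.2) := by
      intro q hq
      have hSq : Simple G q.1 q.2 := ⟨β.ne _ hq, fun g hg => β.nocross _ hq _ hq g hg⟩
      have hcr : ∀ k ∈ G, ¬ Cross q.1 q.2 (k • a) (k • h • a) := by
        intro k hk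
        have h5 : SameArc G x y (k • a) (k • h • a) := hl.smul_right hk
        have h6 : ∀ g ∈ G, ¬ Cross q.1 q.2 (g • x) (g • y) := β.nocross q hq (x, y) hp
        exact cross_same (SameArc.refl q.1 q.2) h5 h6
      obtain ⟨-, k1, k2⟩ := hmg q.1 q.2 hSq hcr
      constructor
      · intro h3
        exact hne q hq (ge_iff.2 (hab'.trans (k1 h3)))
      · intro h3
        exact hne q hq (ge_iff.2 (hab'.trans (k2 h3)))
    have hdeg : ∀ z, (∃ g ∈ G, g • z = b) → β.deg z = 0 := by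
      rintro z ⟨g, hg, hz⟩
      have h0 : ∀ p ∈ β.arcs, ends G p.1 p.2 z = 0 := by
        intro q hq
        obtain ⟨n1, n2⟩ := hno q hq
        have m1 : ¬ ∃ k ∈ G, k • z = q.1 := by
          rintro ⟨k, hk, e⟩
          exact n1 ⟨k * g⁻¹, G.mul_mem hk (G.inv_mem hg), by
            rw [← hz, mul_smul, inv_smul_smul, e]⟩
        have m2 : ¬ ∃ k ∈ G, k • z = q.2 := by
          rintro ⟨k, hk, e⟩
          exact n2 ⟨k * g⁻¹, G.mul_mem hk (G.inv_mem hg), by
            rw [← hz, mul_smul, inv_smul_smul, e]⟩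
        unfold ends
        rw [if_neg m1, if_neg m2]
        rfl
      unfold Sys.deg
      generalize β.arcs = l at h0
      induction l with
      | nil => rfl
      | cons p l ih =>
        rw [List.map_cons, List.sum_cons, Pi.add_apply, h0 p List.mem_cons_self,
          ih (fun q hq => h0 q (List.mem_cons_of_mem _ hq))]
        rfl
    rcases hor with h3 | h3
    · have := hdeg u h3
      omega
    · have := hdeg v h3
      omega
  · -- no folds: `T2` is good
    push Not at hfold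
    have hsub : SubE G T2 (Ge G (some (u, v))) := by
      constructor
      · intro a b h
        exact hQ2 a b (two_E.2 (Or.inl (ge_iff.1 h)))
      · intro a b c d h h'
        exact ge_iff.2 ((ge_iff.1 h').trans h)
    have hxyE : T2.E G x y := hQ2 x y (two_E.2 (Or.inr (SameArc.refl x y)))
    refine hne _ hp (hP G hG (Fin n) T2 hT2 (Ge G (some (u, v))) hsub ?_ x y hxyE hsim)
    intro a b c h1 h2 h3
    exact absurd h3 (hfold a b c h1 h2 (hT2.toNonCross.ne' h3))

end Pool.Agent.Lib.MP_eee7a8_ag.TB.C86
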